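import Mathlib

namespace Pool.Agent.Results.MP_b5b962_gt.Overlap

open Set Finset

/-- the convex-form space: affine maps `C → [0,1]` -/
def Omega {E : Type} [AddCommGroup E] [Module ℝ E] (C : Set E) : Set (C → ℝ) :=
  {w | (∀ a, w a ∈ Icc (0 : ℝ) 1) ∧ ∀ (a b c : C), ∀ t ∈ Icc (0 : ℝ) 1,
    (c : E) = t • (a : E) + (1 - t) • (b : E) → w c = t * w a + (1 - t) * w b}

/-- `h`, with domain `D`, is a partially defined, onto, affine map from `X` to `Y` -/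
def POA {E F : Type} [AddCommGroup E] [Module ℝ E] [AddCommGroup F] [Module ℝ F]
    (X : Set E) (Y : Set F) (D : Set E) (h : E → F) : Prop :=
  D ⊆ X ∧ (∀ a ∈ D, ∀ b ∈ D, ∀ t ∈ Icc (0 : ℝ) 1, t • a + (1 - t) • b ∈ D ∧
    h (t • a + (1 - t) • b) = t • h a + (1 - t) • h b) ∧ h '' D = Y

theorem jensen {E ι : Type} [AddCommGroup E] [Module ℝ E] [Fintype ι] {C : Set E}
    (hC : Convex ℝ C) {w : C → ℝ} (hw : w ∈ Omega C) (p : ι → ℝ) (x : ι → C) (c : C)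
    (p0 : ∀ i, 0 ≤ p i) (p1 : ∑ i, p i = 1) (hc : (c : E) = ∑ i, p i • (x i : E)) :
    w c = ∑ i, p i * w (x i) := by
  classical
  let W : E → ℝ := fun y => if h : y ∈ C then w ⟨y, h⟩ else 0
  have e : ∀ y : C, W y = w y := fun y => dif_pos y.2
  have k : ∀ ⦃y⦄, y ∈ C → ∀ ⦃z⦄, z ∈ C → ∀ ⦃a b : ℝ⦄, 0 ≤ a → 0 ≤ b → a + b = 1 →
      W (a • y + b • z) = a • W y + b • W z := fun y hy z hz a b ha hb hab => by
    obtain rfl : b = 1 - a := by linarith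
    exact (e ⟨_, hC hy hz ha hb hab⟩).trans ((hw.2 ⟨y, hy⟩ ⟨z, hz⟩ _ a ⟨ha, by linarith⟩ rfl).trans
      (by rw [← e, ← e]; rfl))
  have c1 : ConvexOn ℝ C W := ⟨hC, fun _ hy _ hz _ _ ha hb hab => (k hy hz ha hb hab).le⟩
  have c2 : ConcaveOn ℝ C W := ⟨hC, fun _ hy _ hz _ _ ha hb hab => (k hy hz ha hb hab).ge⟩
  rw [← e, hc]
  simp only [← e]
  exact (c1.map_sum_le (fun i _ => p0 i) p1 fun i _ => (x i).2).antisymm
    (c2.le_map_sum (fun i _ => p0 i) p1 fun i _ => (x i).2)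

def v : Fin 4 → ℝ × ℝ := ![(0, 0), (2, 0), (0, 1), (1, 1)]

def f (x : Fin 5 → ℝ) : ℝ × ℝ := (2 * x 1 + 2 * x 3, 2 * x 2 + 2 * x 3)

def D : Set (Fin 5 → ℝ) := {x | x ∈ stdSimplex ℝ (Fin 5) ∧ x 4 = x 2 + x 3}

theorem f_eq {x} : f x = ∑ i, ![x 0, x 1, 2 * x 2, 2 * x 3] i • v i := by
  simp [f, v, Fin.sum_univ_four, mul_comm]

theorem w0 {x} (hx : x ∈ D) (i) : 0 ≤ ![x 0, x 1, 2 * x 2, 2 * x 3] i := by
  have := hx.1.1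
  fin_cases i <;> simp [this]

theorem w1 {x} (hx : x ∈ D) : ∑ i, ![x 0, x 1, 2 * x 2, 2 * x 3] i = 1 := by
  have := hx.1.2
  have := hx.2
  simp [Fin.sum_univ_four, Fin.sum_univ_five] at *
  linarith

theorem poa : POA (stdSimplex ℝ (Fin 5)) (convexHull ℝ (range v)) D f := by
  have k : ∀ a ∈ D, ∀ b ∈ D, ∀ t ∈ Icc (0 : ℝ) 1, t • a + (1 - t) • b ∈ D ∧
      f (t • a + (1 - t) • b) = t • f a + (1 - t) • f b := fun a ha b hb t ht => by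
    refine ⟨⟨convex_stdSimplex ℝ _ ha.1 hb.1 ht.1 (sub_nonneg.2 ht.2) (add_sub_cancel _ _), ?_⟩, ?_⟩
    · simp only [Pi.add_apply, Pi.smul_apply, smul_eq_mul, ha.2, hb.2]
      ring
    · ext <;> simp [f] <;> ring
  refine ⟨fun _ h => h.1, k, Subset.antisymm ?_ (convexHull_min ?_ ?_)⟩
  · rintro _ ⟨a, ha, rfl⟩
    rw [f_eq]
    exact (convex_convexHull ℝ _).sum_mem (fun p _ => w0 ha p) (w1 ha)
      fun p _ => subset_convexHull ℝ _ ⟨p, rfl⟩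
  · rintro _ ⟨p, rfl⟩
    refine ⟨![![1, 0, 0, 0, 0], ![0, 1, 0, 0, 0], ![0, 0, 1 / 2, 0, 1 / 2],
      ![0, 0, 0, 1 / 2, 1 / 2]] p, ⟨⟨fun i => ?_, ?_⟩, ?_⟩, ?_⟩
    · fin_cases p <;> fin_cases i <;> simp
    · fin_cases p <;> simp [Fin.sum_univ_five] <;> norm_num
    · fin_cases p <;> simp
    · fin_cases p <;> simp [f, v]
  · rintro _ ⟨a, ha, rfl⟩ _ ⟨b, hb, rfl⟩ s t h1 h2 h3
    obtain rfl : t = 1 - s := by linarith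
    exact ⟨_, (k a ha b hb s ⟨h1, by linarith⟩).1, (k a ha b hb s ⟨h1, by linarith⟩).2⟩

theorem lift (φ : convexHull ℝ (range v) → ℝ) (hφ : φ ∈ Omega _) :
    ∃ w ∈ Omega (stdSimplex ℝ (Fin 5)), ∀ a (ha : a ∈ D) h, w ⟨a, ha.1⟩ = φ ⟨f a, h⟩ := by
  let c : Fin 4 → convexHull ℝ (range v) := fun p => ⟨v p, subset_convexHull ℝ _ ⟨p, rfl⟩⟩
  have m : ((2 / 3, 2 / 3) : ℝ × ℝ) ∈ convexHull ℝ (range v) := by
    convert (convex_convexHull ℝ _) (c 1).2 (c 2).2 (a := 1 / 3) (b := 2 / 3) (by norm_num)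
      (by norm_num) (by norm_num) using 1
    simp [c, v]
    norm_num
  have a := hφ.2 (c 1) (c 2) ⟨_, m⟩ (1 / 3) (by constructor <;> norm_num) (by simp [c, v]; norm_num)
  have b := hφ.2 (c 0) (c 3) ⟨_, m⟩ (1 / 3) (by constructor <;> norm_num) (by simp [c, v]; norm_num)
  obtain ⟨s, s1, s2⟩ : ∃ s : ℝ, (0 ≤ s ∧ s ≤ 1) ∧ ∀ i, i = 2 ∨ i = 3 →
      0 ≤ 2 * φ (c i) - s ∧ 2 * φ (c i) - s ≤ 1 := by
    have h0 := hφ.1 (c 0)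
    have h1 := hφ.1 (c 1)
    have h2 := hφ.1 (c 2)
    have h3 := hφ.1 (c 3)
    refine ⟨max 0 (max (2 * φ (c 2) - 1) (2 * φ (c 3) - 1)), ⟨le_max_left _ _,
      max_le zero_le_one (max_le (by linarith [h2.2]) (by linarith [h3.2]))⟩, ?_⟩
    have l1 := (le_max_left (2 * φ (c 2) - 1) (2 * φ (c 3) - 1)).trans (le_max_right 0 _)
    have l2 := (le_max_right (2 * φ (c 2) - 1) (2 * φ (c 3) - 1)).trans (le_max_right 0 _)
    rintro i (rfl | rfl) <;> refine ⟨sub_nonneg.2 (max_le ?_ (max_le ?_ ?_)), ?_⟩ <;>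
      linarith [h0.1, h0.2, h1.1, h1.2, h2.1, h3.1]
  let z : Fin 5 → ℝ := ![φ (c 0), φ (c 1), 2 * φ (c 2) - s, 2 * φ (c 3) - s, s]
  have z0 : ∀ x, 0 ≤ z x ∧ z x ≤ 1 := fun x => by
    fin_cases x
    exacts [hφ.1 _, hφ.1 _, s2 2 (.inl rfl), s2 3 (.inr rfl), s1]
  refine ⟨fun a => ∑ x, a.1 x * z x, ⟨fun a => ⟨sum_nonneg fun x _ => mul_nonneg (a.2.1 x) (z0 x).1,
    (sum_le_sum fun x _ => mul_le_of_le_one_right (a.2.1 x) (z0 x).2).trans_eq a.2.2⟩,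
    fun a b x t _ h => ?_⟩, fun a ha h => ?_⟩
  · simp only [h, Pi.add_apply, Pi.smul_apply, smul_eq_mul, add_mul, sum_add_distrib, mul_assoc,
      ← mul_sum]
  rw [jensen (convex_convexHull ℝ _) hφ _ c _ (w0 ha) (w1 ha) f_eq]
  simp [Fin.sum_univ_four, Fin.sum_univ_five, z, ha.2]
  ring

theorem ext (i : Fin 4) : v i ∈ (convexHull ℝ (range v)).extremePoints ℝ := by
  have h : ∀ x ∈ convexHull ℝ (range v), 0 ≤ x.1 ∧ 0 ≤ x.2 ∧ x.2 ≤ 1 ∧ x.1 + x.2 ≤ 2 := by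
    rw [← poa.2.2]
    rintro _ ⟨a, ⟨⟨a0, a1⟩, a2⟩, rfl⟩
    rw [Fin.sum_univ_five] at a1
    refine ⟨?_, ?_, ?_, ?_⟩ <;> simp only [f] <;> linarith [a0 0, a0 1, a0 2, a0 3]
  refine ⟨subset_convexHull ℝ _ ⟨_, rfl⟩, ?_⟩
  rintro x hx y hy ⟨s, t, s0, t0, st, hs⟩
  obtain ⟨x1, x2, x3, x4⟩ := h x hx
  obtain ⟨y1, y2, y3, y4⟩ := h y hy
  have k : ∀ p q : ℝ, 0 ≤ p → 0 ≤ q → s * p + t * q = 0 → p = 0 := fun p q hp hq h => by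
    nlinarith [mul_nonneg t0.le hq]
  obtain ⟨a, b⟩ := Prod.ext_iff.1 hs
  fin_cases i <;> simp [v, -mul_eq_zero] at a b ⊢ <;> ext <;> simp only
  · exact k _ _ x1 y1 a
  · exact k _ _ x2 y2 b
  · linarith [k _ _ x2 y2 b, k _ _ (sub_nonneg.2 x4) (sub_nonneg.2 y4) (by linarith)]
  · exact k _ _ x2 y2 b
  · exact k _ _ x1 y1 a
  · linarith [k _ _ (sub_nonneg.2 x3) (sub_nonneg.2 y3) (by linarith)]
  · linarith [k _ _ (sub_nonneg.2 x3) (sub_nonneg.2 y3) (by linarith),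
      k _ _ (sub_nonneg.2 x4) (sub_nonneg.2 y4) (by linarith)]
  · linarith [k _ _ (sub_nonneg.2 x3) (sub_nonneg.2 y3) (by linarith)]

theorem result : ∃ C : Set (ℝ × ℝ), (∃ S : Set (ℝ × ℝ), S.Finite ∧ C = convexHull ℝ S) ∧
    (¬∃ S : Set (ℝ × ℝ), S.Finite ∧ AffineIndependent ℝ ((↑) : S → ℝ × ℝ) ∧ C = convexHull ℝ S) ∧
    ∃ (A : Set (Fin 5 → ℝ)) (f : (Fin 5 → ℝ) → ℝ × ℝ) (B : Set (stdSimplex ℝ (Fin 5) → ℝ))
      (g : (stdSimplex ℝ (Fin 5) → ℝ) → C → ℝ), POA (stdSimplex ℝ (Fin 5)) C A f ∧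
      POA (Omega (stdSimplex ℝ (Fin 5))) (Omega C) B g ∧
      (∀ a ∈ A, ∀ w ∈ B, ∀ h₁ h₂, g w ⟨f a, h₁⟩ = w ⟨a, h₂⟩) ∧
      ∃ a ∈ C.extremePoints ℝ, ∃ b ∈ C.extremePoints ℝ, a ≠ b ∧
        ∃ i, (∃ x ∈ A, f x = a ∧ 0 < x i) ∧ ∃ y ∈ A, f y = b ∧ 0 < y i := by
  have sec : ∀ c : convexHull ℝ (range v), ∃ a ∈ D, f a = c := fun c => poa.2.2.ge c.2
  choose σ σ1 σ2 using sec
  refine ⟨_, ⟨_, finite_range v, rfl⟩, ?_, D, f, {w | w ∈ Omega _ ∧ ∀ a (ha : a ∈ D) b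
    (hb : b ∈ D), f a = f b → w ⟨a, ha.1⟩ = w ⟨b, hb.1⟩}, fun w c => w ⟨σ c, (σ1 c).1⟩, poa,
    ⟨fun _ h => h.1, fun v hv w hw t ht => ⟨⟨⟨fun a => ?_, fun a b c s hs h => ?_⟩,
      fun a ha b hb h => ?_⟩, rfl⟩, Subset.antisymm ?_ fun φ hφ => ?_⟩,
    fun a ha w hw h _ => hw.2 _ (σ1 _) a ha (σ2 _), _, ext 2, _, ext 3, by simp [v], 4,
    ⟨![0, 0, 1 / 2, 0, 1 / 2], ⟨⟨fun i => ?_, ?_⟩, by simp⟩, by simp [f, v], by simp⟩,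
    ![0, 0, 0, 1 / 2, 1 / 2], ⟨⟨fun i => ?_, ?_⟩, by simp⟩, by simp [f, v], by simp⟩
  · rintro ⟨S, h1, h2, h3⟩
    have := h1.fintype
    have a := h2.card_le_finrank_succ
    have b := Submodule.finrank_le (vectorSpan ℝ (range ((↑) : S → ℝ × ℝ)))
    have c : (range v).ncard ≤ S.ncard := ncard_le_ncard (by
      rintro _ ⟨i, rfl⟩
      exact extremePoints_convexHull_subset (𝕜 := ℝ) (h3 ▸ ext i)) h1
    rw [ncard_range_of_injective fun i j h => by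
      fin_cases i <;> fin_cases j <;> simp [v] at h ⊢] at c
    rw [← Nat.card_eq_fintype_card, Nat.card_coe_set_eq] at a
    simp at b c
    omega
  · exact convex_Icc (0 : ℝ) 1 (hv.1.1 a) (hw.1.1 a) ht.1 (sub_nonneg.2 ht.2) (add_sub_cancel _ _)
  · simp only [Pi.add_apply, Pi.smul_apply, smul_eq_mul, hv.1.2 a b c s hs h, hw.1.2 a b c s hs h]
    ring
  · simp only [Pi.add_apply, Pi.smul_apply, hv.2 a ha b hb h, hw.2 a ha b hb h]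
  · rintro _ ⟨w, hw, rfl⟩
    refine ⟨fun c => hw.1.1 _, fun a b c t ht h => ?_⟩
    obtain ⟨k1, k2⟩ := poa.2.1 _ (σ1 a) _ (σ1 b) t ht
    exact (hw.2 _ (σ1 c) _ k1 (by rw [k2, σ2, σ2, σ2, h])).trans (hw.1.2 _ _ _ t ht rfl)
  · obtain ⟨w, hw, h⟩ := lift φ hφ
    refine ⟨w, ⟨hw, fun a ha b hb hab => ?_⟩, funext fun c => ?_⟩
    · rw [h a ha (poa.2.2.le ⟨a, ha, rfl⟩), h b hb (poa.2.2.le ⟨b, hb, rfl⟩)]
      simp only [hab]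
    · exact (h _ (σ1 c) (σ2 c ▸ c.2)).trans (by simp only [σ2])
  · fin_cases i <;> simp
  · simp [Fin.sum_univ_five]; norm_num
  · fin_cases i <;> simp
  · simp [Fin.sum_univ_five]; norm_num

end Pool.Agent.Results.MP_b5b962_gt.Overlap
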